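import Pool.Agent.Lib_helper35.PQ.HPQ
import Pool.Agent.Lib_helper6.PQ.C32

/-!
# Block CPQ: Tunnell's number at `p q` modulo 32
-/

set_option autoImplicit false

namespace Pool.Agent.PQ

open Finset Filter Topology Pool.Agent.TM32

theorem c_pq (p q : ℕ) (hpq : Pair p q) :
    (¬ Pow2 q p → c (p * q) % 16 = 8) ∧
    (Pow2 q p → (16 : ℤ) ∣ c (p * q) ∧ (c (p * q) % 32 = 16 ↔ (Pow4 q p ↔ Ex p))) := by
  have hz : NeZero (p * q) := ⟨Nat.mul_ne_zero hpq.1.ne_zero hpq.2.1.ne_zero⟩
  obtain ⟨h2, h4, h8⟩ := h_pq p q hpq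
  obtain ⟨c5, c1⟩ := c_pq_h p q hpq
  have hp4 := hpq.2.2.1
  have hcases : p % 8 = 1 ∨ p % 8 = 5 := by omega
  generalize h (p * q) = H at h2 h4 h8 c5 c1
  generalize c (p * q) = C at c5 c1 ⊢
  rcases hcases with h1 | h5
  · obtain ⟨d8, hc⟩ := c1 h1
    unfold Int.ModEq at hc
    have hEx : Ex p ↔ ¬ (16 : ℤ) ∣ c p := by
      unfold Ex
      constructor
      · rintro (h | h)
        · omega
        · exact h
      · exact Or.inr
    rw [hEx]
    generalize c p = D at d8 hc hEx ⊢
    refine ⟨fun hn => ?_, fun hP => ?_⟩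
    · have : ¬ 4 ∣ H := fun h => hn (h4.1 h)
      omega
    · have h4' := h4.2 hP
      have h8' := h8 hP
      have e : (Pow4 q p ↔ p % 8 = 1) ↔ Pow4 q p := by simp [h1]
      rw [e] at h8'
      rw [← h8']
      refine ⟨by omega, ?_⟩
      constructor
      · intro h
        constructor
        · intro h' 
          omega
        · intro h' 
          by_contra h''
          omega
      · intro h
        by_cases h' : 8 ∣ H
        · have := h.1 h'
          omega
        · have : (16 : ℤ) ∣ D := by
            by_contra hcon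
            exact h' (h.2 hcon)
          omega
  · have hc := c5 h5
    unfold Int.ModEq at hc
    have hEx : Ex p := Or.inl h5
    refine ⟨fun hn => ?_, fun hP => ?_⟩
    · have : ¬ 4 ∣ H := fun h => hn (h4.1 h)
      omega
    · have h4' := h4.2 hP
      have h8' := h8 hP
      have e : (Pow4 q p ↔ p % 8 = 1) ↔ ¬ Pow4 q p := by
        have : ¬ p % 8 = 1 := by omega
        simp [this]
      rw [e] at h8'
      have e2 : (Pow4 q p ↔ Ex p) ↔ Pow4 q p := by simp [hEx]
      rw [e2]
      refine ⟨by omega, ?_⟩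
      constructor
      · intro h
        by_contra h'
        have := h8'.2 h'
        omega
      · intro h
        have : ¬ 8 ∣ H := fun h' => h8'.1 h' h
        omega

end Pool.Agent.PQ
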