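import Pool.Agent.Lib_helper35.PQ.CPQ
import Pool.Agent.Lib_helper31.PQ.AP

/-!
# Block FIB: densities for fixed `p`
-/

set_option autoImplicit false

namespace Pool.Agent.PQ

open Finset Filter Topology Pool.Agent.TM32

private theorem fib_mod8 (p u : ℕ) (hp4 : p % 4 = 1) :
    (p * u) % 8 = 3 ↔ u % 8 = (if p % 8 = 1 then 3 else 7) := by
  have hcases : p % 8 = 1 ∨ p % 8 = 5 := by omega
  rw [Nat.mul_mod]
  have hu : u % 8 < 8 := Nat.mod_lt _ (by norm_num)
  rcases hcases with h | h
  · rw [h, if_pos rfl]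
    generalize u % 8 = v at hu ⊢
    interval_cases v <;> simp
  · rw [h, if_neg (by norm_num)]
    generalize u % 8 = v at hu ⊢
    interval_cases v <;> simp

open Classical in
/-- the number of non-zero classes modulo `p` with the property `P` -/
private noncomputable def fibN (p : ℕ) [Fact p.Prime] (P : ZMod p → Prop) : ℕ :=
  ((univ : Finset (ZMod p)).filter (fun w => w ≠ 0 ∧ P w)).card

private theorem fibN_eq (p : ℕ) [Fact p.Prime] (P : ZMod p → Prop)
    [DecidablePred (fun w : ZMod p => w ≠ 0 ∧ P w)] :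
    fibN p P = ((univ : Finset (ZMod p)).filter (fun w => w ≠ 0 ∧ P w)).card := by
  unfold fibN
  congr

private theorem fibN_congr (p : ℕ) [Fact p.Prime] (P Q : ZMod p → Prop) (h : ∀ w, P w ↔ Q w) :
    fibN p P = fibN p Q := by
  have : P = Q := funext fun w => propext (h w)
  rw [this]

private theorem fibN_add (p : ℕ) [Fact p.Prime] (P Q : ZMod p → Prop) (h : ∀ w, P w → ¬ Q w) :
    fibN p P + fibN p Q = fibN p (fun w => P w ∨ Q w) := by
  classical
  rw [fibN_eq, fibN_eq, fibN_eq, ← card_union_of_disjoint]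
  · congr 1
    ext w
    simp only [mem_union, mem_filter, mem_univ, true_and]
    tauto
  · rw [disjoint_filter]
    intro w _ h1 h2
    exact h w h1.2 h2.2

open Classical in
private theorem fib_crt (p : ℕ) [Fact p.Prime] (hp4 : p % 4 = 1) (P : ZMod p → Prop) :
    ((range (8 * p)).filter
      (fun u => Nat.Coprime u (8 * p) ∧ (p * u) % 8 = 3 ∧ P (u : ZMod p))).card = fibN p P := by
  rw [fibN_eq]
  have hp : p.Prime := Fact.out
  have h8p : Nat.Coprime 8 p := by
    have : Nat.Coprime 2 p := by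
      rw [Nat.coprime_primes Nat.prime_two hp]; omega
    exact Nat.Coprime.pow_left 3 this
  refine Finset.card_bij (fun u _ => (u : ZMod p)) ?_ ?_ ?_
  · intro u hu
    simp only [mem_filter, mem_range, mem_univ, true_and] at hu ⊢
    refine ⟨?_, hu.2.2.2⟩
    rw [Ne, ZMod.natCast_eq_zero_iff]
    intro hdvd
    have h1 : Nat.Coprime u p := Nat.Coprime.coprime_mul_left_right hu.2.1
    exact hp.one_lt.ne' (Nat.Coprime.eq_one_of_dvd h1.symm hdvd)
  · intro u hu v hv huv
    simp only [mem_filter, mem_range] at hu hv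
    have h1 : u ≡ v [MOD 8] := by
      unfold Nat.ModEq
      rw [(fib_mod8 p u hp4).1 hu.2.2.1, (fib_mod8 p v hp4).1 hv.2.2.1]
    have h2 : u ≡ v [MOD p] := (ZMod.natCast_eq_natCast_iff _ _ _).1 huv
    have h3 : u ≡ v [MOD 8 * p] := (Nat.modEq_and_modEq_iff_modEq_mul h8p).1 ⟨h1, h2⟩
    exact Nat.ModEq.eq_of_lt_of_lt h3 hu.1 hv.1
  · intro w hw
    simp only [mem_filter, mem_univ, true_and] at hw
    set k := Nat.chineseRemainder h8p (if p % 8 = 1 then 3 else 7) w.val with hk
    have hk8 : (k : ℕ) % 8 = (if p % 8 = 1 then 3 else 7) := by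
      have := k.prop.1
      unfold Nat.ModEq at this
      rw [this]
      split_ifs <;> rfl
    have hkp : ((k : ℕ) : ZMod p) = w := by
      rw [(ZMod.natCast_eq_natCast_iff _ _ _).2 k.prop.2]
      exact ZMod.natCast_zmod_val w
    refine ⟨k, ?_, hkp⟩
    simp only [mem_filter, mem_range]
    refine ⟨Nat.chineseRemainder_lt_mul h8p _ _ (by norm_num) hp.ne_zero, ?_,
      (fib_mod8 p k hp4).2 hk8, by rw [hkp]; exact hw.2⟩
    apply Nat.Coprime.mul_right
    · have h2 : Nat.Coprime (k : ℕ) 2 := by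
        rw [Nat.coprime_two_right, Nat.odd_iff]
        split_ifs at hk8 <;> omega
      exact Nat.Coprime.pow_right 3 h2
    · rw [Nat.coprime_comm, hp.coprime_iff_not_dvd]
      intro hdvd
      apply hw.1
      rw [← hkp, ZMod.natCast_eq_zero_iff]
      exact hdvd

private theorem fib_pow (p k : ℕ) [Fact p.Prime] (hk : k ∣ p - 1) (hk0 : k ≠ 0) :
    fibN p (fun w => ∃ x : ZMod p, x ^ k = w) = (p - 1) / k := by
  classical
  rw [fibN_eq]
  have hp : p.Prime := Fact.out
  have h1 : Nat.card (powMonoidHom k : (ZMod p)ˣ →* (ZMod p)ˣ).range = (p - 1) / k := by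
    rw [IsCyclic.card_powMonoidHom_range, Nat.card_eq_fintype_card, ZMod.card_units,
      Nat.gcd_eq_right hk]
  rw [← h1, Nat.card_eq_fintype_card, Fintype.card_subtype]
  symm
  refine Finset.card_bij (fun u _ => (u : ZMod p)) ?_ ?_ ?_
  · intro u hu
    simp only [mem_filter, mem_univ, true_and, MonoidHom.mem_range, powMonoidHom_apply] at hu ⊢
    obtain ⟨v, hv⟩ := hu
    exact ⟨u.ne_zero, (v : ZMod p), by rw [← hv]; simp⟩
  · intro u _ v _ huv
    exact Units.ext huv
  · intro w hw
    simp only [mem_filter, mem_univ, true_and] at hw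
    obtain ⟨h0, x, hx⟩ := hw
    have hx0 : x ≠ 0 := by
      rintro rfl
      apply h0
      rw [← hx, zero_pow hk0]
    refine ⟨Units.mk0 w h0, ?_, rfl⟩
    simp only [mem_filter, mem_univ, true_and, MonoidHom.mem_range, powMonoidHom_apply]
    refine ⟨Units.mk0 x hx0, ?_⟩
    apply Units.ext
    simpa using hx

private theorem fib_counts (p : ℕ) [Fact p.Prime] (hp4 : p % 4 = 1) :
    fibN p (fun w => ¬ ∃ x : ZMod p, x ^ 2 = w) = (p - 1) / 2 ∧
    fibN p (fun w => ∃ x : ZMod p, x ^ 4 = w) = (p - 1) / 4 ∧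
    fibN p (fun w => (∃ x : ZMod p, x ^ 2 = w) ∧ ¬ ∃ x : ZMod p, x ^ 4 = w) = (p - 1) / 4 ∧
    fibN p (fun _ => True) = p - 1 := by
  have hp : p.Prime := Fact.out
  have h2 := fib_pow p 2 (by omega) (by norm_num)
  have h4 := fib_pow p 4 (by omega) (by norm_num)
  have hall : fibN p (fun _ => True) = p - 1 := by
    classical
    rw [fibN_eq]
    have : (univ : Finset (ZMod p)).filter (fun w => w ≠ 0 ∧ True) = univ.erase 0 := by
      ext w; simp
    rw [this, card_erase_of_mem (mem_univ _), card_univ, ZMod.card]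
  refine ⟨?_, h4, ?_, hall⟩
  · have hs := fibN_add p (fun w => ∃ x : ZMod p, x ^ 2 = w) (fun w => ¬ ∃ x : ZMod p, x ^ 2 = w)
      (fun w h h' => h' h)
    rw [fibN_congr p (fun w => (∃ x : ZMod p, x ^ 2 = w) ∨ ¬ ∃ x : ZMod p, x ^ 2 = w)
      (fun _ => True) (fun w => ⟨fun _ => trivial, fun _ => em _⟩), hall] at hs
    omega
  · have hs := fibN_add p (fun w => ∃ x : ZMod p, x ^ 4 = w)
      (fun w => (∃ x : ZMod p, x ^ 2 = w) ∧ ¬ ∃ x : ZMod p, x ^ 4 = w) (fun w h h' => h'.2 h)
    rw [fibN_congr p (fun w => (∃ x : ZMod p, x ^ 4 = w) ∨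
      ((∃ x : ZMod p, x ^ 2 = w) ∧ ¬ ∃ x : ZMod p, x ^ 4 = w)) (fun w => ∃ x : ZMod p, x ^ 2 = w) ?_] at hs
    · omega
    · intro w
      constructor
      · rintro (⟨x, hx⟩ | h)
        · exact ⟨x ^ 2, by rw [← hx]; ring⟩
        · exact h.1
      · intro h
        by_cases h' : ∃ x : ZMod p, x ^ 4 = w
        · exact Or.inl h'
        · exact Or.inr ⟨h, h'⟩

open Classical in
/-- the limit of the counts with `q mod 8p` in a set of classes -/
private theorem fib_lim (p : ℕ) [Fact p.Prime] (hp4 : p % 4 = 1) (P : ZMod p → Prop) :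
    Tendsto (fun x : ℕ => (((prm x).filter (fun q => (p * q) % 8 = 3 ∧ P (q : ZMod p))).card : ℝ) /
      (x / Real.log x)) atTop
      (𝓝 ((fibN p P : ℝ) * (1 / (Nat.totient (8 * p) : ℝ)))) := by
  have hp : p.Prime := Fact.out
  have hM : 0 < 8 * p := by have := hp.pos; omega
  set R := (range (8 * p)).filter
      (fun u => Nat.Coprime u (8 * p) ∧ (p * u) % 8 = 3 ∧ P (u : ZMod p)) with hR
  rw [← fib_crt p hp4 P, ← hR]
  have hsum : Tendsto (fun x : ℕ => ∑ u ∈ R,
      ((((prm x).filter (fun q => q % (8 * p) = u % (8 * p))).card : ℝ) / (x / Real.log x))) atTop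
      (𝓝 (∑ _u ∈ R, (1 / (Nat.totient (8 * p) : ℝ)))) := by
    refine tendsto_finsetSum _ fun u hu => ?_
    rw [hR, mem_filter] at hu
    exact pi_ap (8 * p) (by omega) u hu.2.1
  rw [sum_const, nsmul_eq_mul] at hsum
  refine hsum.congr fun x => ?_
  rw [← sum_div]
  congr 1
  rw [← Nat.cast_sum]
  congr 1
  rw [← card_biUnion]
  · congr 1
    ext q
    simp only [mem_biUnion, mem_filter]
    constructor
    · rintro ⟨u, hu, hq, hqu⟩
      rw [hR, mem_filter, mem_range] at hu
      obtain ⟨hlt, hc, h8, hP⟩ := hu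
      rw [Nat.mod_eq_of_lt hlt] at hqu
      refine ⟨hq, ?_, ?_⟩
      · rw [fib_mod8 p q hp4, ← (fib_mod8 p u hp4).1 h8, ← hqu]
        exact (Nat.mod_mod_of_dvd q (Dvd.intro _ rfl)).symm
      · have : (q : ZMod p) = (u : ZMod p) := by
          rw [ZMod.natCast_eq_natCast_iff]
          rw [← hqu]
          exact ((Nat.mod_modEq q (8 * p)).of_mul_left 8).symm
        rw [this]; exact hP
    · rintro ⟨hq, h8, hP⟩
      have hqp : q.Prime := by
        unfold prm at hq
        exact (mem_filter.1 hq).2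
      have hmod : ((q % (8 * p) : ℕ) : ZMod p) = (q : ZMod p) := by
        rw [ZMod.natCast_eq_natCast_iff]
        exact (Nat.mod_modEq q (8 * p)).of_mul_left 8
      refine ⟨q % (8 * p), ?_, hq, (Nat.mod_mod _ _).symm⟩
      rw [hR, mem_filter, mem_range]
      refine ⟨Nat.mod_lt _ hM, ?_, ?_, ?_⟩
      · have hq8 := (fib_mod8 p q hp4).1 h8
        have hodd : q % 4 = 3 := by
          split_ifs at hq8 <;> omega
        have h1 : Nat.Coprime q (8 * p) := by
          rw [hqp.coprime_iff_not_dvd]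
          intro hdvd
          rcases (hqp.dvd_mul).1 hdvd with h | h
          · have : q ∣ 2 ^ 3 := by simpa using h
            have := hqp.dvd_of_dvd_pow this
            have := (Nat.prime_dvd_prime_iff_eq hqp Nat.prime_two).1 this
            omega
          · have := (Nat.prime_dvd_prime_iff_eq hqp hp).1 h
            omega
        unfold Nat.Coprime at h1 ⊢
        rw [← Nat.gcd_rec, Nat.gcd_comm]
        exact h1
      · rw [fib_mod8 p _ hp4, ← (fib_mod8 p q hp4).1 h8]
        exact Nat.mod_mod_of_dvd q (Dvd.intro _ rfl)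
      · rw [hmod]; exact hP
  · intro u hu v hv huv
    simp only [Function.onFun]
    rw [disjoint_filter]
    intro q _ h h'
    apply huv
    rw [hR] at hu hv
    simp only [coe_filter, mem_range, Set.mem_ofPred_eq] at hu hv
    rw [Nat.mod_eq_of_lt hu.1] at h
    rw [Nat.mod_eq_of_lt hv.1] at h'
    rw [← h, ← h']

open Classical in
private theorem fib_main (p : ℕ) [Fact p.Prime] (hp4 : p % 4 = 1) (P : ZMod p → Prop) (t : ℝ)
    (ht : (fibN p P : ℝ) = t * ((p - 1 : ℕ) : ℝ)) :
    Tendsto (fun x : ℕ => (((prm x).filter (fun q => (p * q) % 8 = 3 ∧ P (q : ZMod p))).card : ℝ) /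
      ((prm x).filter (fun q => (p * q) % 8 = 3)).card) atTop (𝓝 t) := by
  have hp : p.Prime := Fact.out
  have h1 := fib_lim p hp4 P
  have h2 := fib_lim p hp4 (fun _ => True)
  rw [ht] at h1
  rw [(fib_counts p hp4).2.2.2] at h2
  simp only [and_true] at h2
  have hp1 : ((p - 1 : ℕ) : ℝ) ≠ 0 := by
    have : p - 1 ≠ 0 := by have := hp.one_lt; omega
    exact_mod_cast this
  have hφ : (Nat.totient (8 * p) : ℝ) ≠ 0 := by
    have : 0 < Nat.totient (8 * p) := Nat.totient_pos.2 (by have := hp.pos; omega)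
    exact_mod_cast this.ne'
  have h3 := h1.div h2 (mul_ne_zero hp1 (one_div_ne_zero hφ))
  have e : t * ((p - 1 : ℕ) : ℝ) * (1 / (Nat.totient (8 * p) : ℝ)) /
      (((p - 1 : ℕ) : ℝ) * (1 / (Nat.totient (8 * p) : ℝ))) = t := by
    field_simp
  rw [e] at h3
  refine h3.congr' ?_
  filter_upwards [eventually_ge_atTop 2] with x hx
  have hx1 : (1 : ℝ) < x := by exact_mod_cast (by omega : 1 < x)
  have hne : (x : ℝ) / Real.log x ≠ 0 := by
    have := Real.log_pos hx1
    positivity
  simp only [Pi.div_apply]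
  rw [div_div_div_cancel_right₀ hne]

theorem fib (p : ℕ) (hp : p.Prime) (hp4 : p % 4 = 1) (t : ℝ) (a m : ℤ)
    (ham : (m = 16 ∧ a = 8 ∧ t = 1 / 2) ∨ (m = 32 ∧ a = 16 ∧ t = 1 / 4) ∨ (m = 32 ∧ a = 0 ∧ t = 1 / 4)) :
    Tendsto (fun x : ℕ => (((prm x).filter (fun q => (p * q) % 8 = 3 ∧ c (p * q) % m = a)).card : ℝ) /
      ((prm x).filter (fun q => (p * q) % 8 = 3)).card) atTop (𝓝 t) := by
  classical
  have : Fact p.Prime := ⟨hp⟩
  obtain ⟨n1, n2, n3, -⟩ := fib_counts p hp4
  have hpair : ∀ q : ℕ, q.Prime → (p * q) % 8 = 3 → Pair p q := by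
    intro q hq h8
    refine ⟨hp, hq, hp4, ?_, h8⟩
    have := (fib_mod8 p q hp4).1 h8
    split_ifs at this <;> omega
  have hred : ∀ P : ZMod p → Prop,
      (fibN p P : ℝ) = t * ((p - 1 : ℕ) : ℝ) →
      (∀ q : ℕ, Pair p q → (c (p * q) % m = a ↔ P (q : ZMod p))) →
      Tendsto (fun x : ℕ => (((prm x).filter (fun q => (p * q) % 8 = 3 ∧ c (p * q) % m = a)).card : ℝ) /
      ((prm x).filter (fun q => (p * q) % 8 = 3)).card) atTop (𝓝 t) := by
    intro P hcard hP
    refine (fib_main p hp4 P t hcard).congr fun x => ?_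
    have : (prm x).filter (fun q => (p * q) % 8 = 3 ∧ P (q : ZMod p)) =
        (prm x).filter (fun q => (p * q) % 8 = 3 ∧ c (p * q) % m = a) := by
      refine Finset.filter_congr fun q hq => ?_
      have hqp : q.Prime := by
        unfold prm at hq
        exact (mem_filter.1 hq).2
      constructor
      · rintro ⟨h8, h⟩
        exact ⟨h8, (hP q (hpair q hqp h8)).2 h⟩
      · rintro ⟨h8, h⟩
        exact ⟨h8, (hP q (hpair q hqp h8)).1 h⟩
    rw [this]
  have hd4 : 4 ∣ p - 1 := by omega
  obtain ⟨k, hk⟩ := hd4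
  have hkr : ((p - 1 : ℕ) : ℝ) = 4 * k := by rw [hk]; push_cast; ring
  have hk2 : (p - 1) / 2 = 2 * k := by omega
  have hk4 : (p - 1) / 4 = k := by omega
  rw [hk2] at n1
  rw [hk4] at n2 n3
  rcases ham with ⟨rfl, rfl, rfl⟩ | ⟨rfl, rfl, rfl⟩ | ⟨rfl, rfl, rfl⟩
  · refine hred (fun w => ¬ ∃ x : ZMod p, x ^ 2 = w) ?_ ?_
    · rw [n1, hkr]; push_cast; ring
    · intro q hq
      obtain ⟨h1, h2⟩ := c_pq p q hq
      constructor
      · intro h h'
        have := (h2 h').1
        omega
      · exact h1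
  · by_cases hE : Ex p
    · refine hred (fun w => ∃ x : ZMod p, x ^ 4 = w) ?_ ?_
      · rw [n2, hkr]; ring
      · intro q hq
        obtain ⟨h1, h2⟩ := c_pq p q hq
        have h42 : Pow4 q p → Pow2 q p := by
          rintro ⟨x, hx⟩
          exact ⟨x ^ 2, by rw [← hx]; ring⟩
        constructor
        · intro h
          have hP : Pow2 q p := by
            by_contra hcon
            have := h1 hcon
            omega
          exact (((h2 hP).2).1 h).2 hE
        · intro h
          exact ((h2 (h42 h)).2).2 ⟨fun _ => hE, fun _ => h⟩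
    · refine hred (fun w => (∃ x : ZMod p, x ^ 2 = w) ∧ ¬ ∃ x : ZMod p, x ^ 4 = w) ?_ ?_
      · rw [n3, hkr]; ring
      · intro q hq
        obtain ⟨h1, h2⟩ := c_pq p q hq
        constructor
        · intro h
          have hP : Pow2 q p := by
            by_contra hcon
            have := h1 hcon
            omega
          exact ⟨hP, fun h4 => hE ((((h2 hP).2).1 h).1 h4)⟩
        · rintro ⟨hP, h4⟩
          exact ((h2 hP).2).2 ⟨fun h => absurd h h4, fun h => absurd h hE⟩
  · by_cases hE : Ex p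
    · refine hred (fun w => (∃ x : ZMod p, x ^ 2 = w) ∧ ¬ ∃ x : ZMod p, x ^ 4 = w) ?_ ?_
      · rw [n3, hkr]; ring
      · intro q hq
        obtain ⟨h1, h2⟩ := c_pq p q hq
        constructor
        · intro h
          have hP : Pow2 q p := by
            by_contra hcon
            have := h1 hcon
            omega
          refine ⟨hP, fun h4 => ?_⟩
          have := ((h2 hP).2).2 ⟨fun _ => hE, fun _ => h4⟩
          omega
        · rintro ⟨hP, h4⟩
          have h16 := (h2 hP).1
          have hn : ¬ c (p * q) % 32 = 16 := fun h => h4 ((((h2 hP).2).1 h).2 hE)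
          omega
    · refine hred (fun w => ∃ x : ZMod p, x ^ 4 = w) ?_ ?_
      · rw [n2, hkr]; ring
      · intro q hq
        obtain ⟨h1, h2⟩ := c_pq p q hq
        have h42 : Pow4 q p → Pow2 q p := by
          rintro ⟨x, hx⟩
          exact ⟨x ^ 2, by rw [← hx]; ring⟩
        constructor
        · intro h
          have hP : Pow2 q p := by
            by_contra hcon
            have := h1 hcon
            omega
          by_contra h4
          have := ((h2 hP).2).2 ⟨fun h' => absurd h' h4, fun h' => absurd h' hE⟩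
          omega
        · intro h
          have hP := h42 h
          have h16 := (h2 hP).1
          have hn : ¬ c (p * q) % 32 = 16 := fun h' => hE ((((h2 hP).2).1 h').1 h)
          omega

end Pool.Agent.PQ
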