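import Pool.Agent.Lib_helper72.PQ.R1
import Pool.Agent.Lib_helper81.PQ.R2
import Pool.Agent.Lib_helper51.PQ.R5
import Pool.Agent.Lib_helper91.PQ.GR
import Pool.Agent.Lib_helper81.PQ.CHI
import Pool.Agent.Lib_helper95.PQ.QR
import Pool.Agent.Lib_helper72.TM32.E3d

/-!
# Block HPQ: the class number of `ℤ[√-pq]` modulo 8
-/

set_option autoImplicit false

namespace Pool.Agent.PQ

open Finset Filter Topology Pool.Agent.TM32

private theorem hpq_fin (p q : ℕ) [NeZero (p * q)] (hpq : Pair p q) :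
    Finite (ClassGroup (Od (p * q))) := by
  obtain ⟨hp, hq, hp4, hq4, h8⟩ := hpq
  have hne : p ≠ q := by omega
  have hsq : Squarefree (p * q) :=
    (Nat.squarefree_mul ((Nat.coprime_primes hp hq).2 hne)).2
      ⟨hp.prime.squarefree, hq.prime.squarefree⟩
  exact (r3_three (p * q) hsq h8).1

/-- `m = q x² + p y²`, `m` prime to `p`: `(m/p) = 1` iff `q` is a square modulo `p` -/
private theorem hpq_sym (p q : ℕ) (hp : p.Prime) (m : ℕ)
    (hm : Nat.Coprime m p) (x y : ℤ) (h : (m : ℤ) = q * x ^ 2 + p * y ^ 2) :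
    jacobiSym m p = 1 ↔ Pow2 q p := by
  have : Fact p.Prime := ⟨hp⟩
  have hmp : (m : ZMod p) ≠ 0 := by
    rw [Ne, ZMod.natCast_eq_zero_iff]
    intro hdvd
    have := Nat.Coprime.eq_one_of_dvd hm.symm hdvd
    exact hp.one_lt.ne' this
  have hz : (m : ZMod p) = (q : ZMod p) * (x : ZMod p) ^ 2 := by
    have := congrArg (Int.cast : ℤ → ZMod p) h
    push_cast at this
    rw [this]
    simp
  have hx : (x : ZMod p) ≠ 0 := by
    intro h0
    apply hmp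
    rw [hz, h0]
    ring
  have hm' : ((m : ℤ) : ZMod p) ≠ 0 := by simpa using hmp
  rw [← jacobiSym.legendreSym.to_jacobiSym]
  rw [legendreSym.eq_one_iff p hm']
  constructor
  · rintro ⟨w, hw⟩
    refine ⟨w * (x : ZMod p)⁻¹, ?_⟩
    have hw' : (q : ZMod p) * (x : ZMod p) ^ 2 = w * w := by
      rw [← hz, ← hw]; simp
    rw [mul_pow, pow_two w, ← hw', mul_assoc, ← mul_pow, mul_inv_cancel₀ hx, one_pow, mul_one]
  · rintro ⟨w, hw⟩
    refine ⟨w * (x : ZMod p), ?_⟩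
    have : ((m : ℤ) : ZMod p) = (m : ZMod p) := by simp
    rw [this, hz, ← hw]
    ring

theorem h_pq (p q : ℕ) [NeZero (p * q)] (hpq : Pair p q) :
    2 ∣ h (p * q) ∧ (4 ∣ h (p * q) ↔ Pow2 q p) ∧
      (Pow2 q p → (8 ∣ h (p * q) ↔ (Pow4 q p ↔ p % 8 = 1))) := by
  have := hpq_fin p q hpq
  obtain ⟨hp, hq, hp4, hq4, h8⟩ := id hpq
  obtain ⟨τ, h1, h2, h3, h4, h5⟩ := tau p q hpq
  obtain ⟨χ, hχ, hχm⟩ := chi_exists p q hpq
  obtain ⟨g1, g2, g3, g4⟩ := gr τ h1 h2 h3 χ hχ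
  have key : χ τ = 1 ↔ Pow2 q p := by
    obtain ⟨m, r, hm⟩ := rp_exists (p * q) τ
    obtain ⟨x, y, hxy⟩ := h4 m r hm
    have hj := hχm τ m r hm
    have hmp : Nat.Coprime m p :=
      Nat.Coprime.coprime_dvd_right (Dvd.intro_left (2 * q) (by ring)) hm.2.1
    rw [← hpq_sym p q hp m hmp x y hxy, ← hj]
    constructor
    · intro h; rw [h]; rfl
    · intro h; exact Units.ext h
  refine ⟨g2, g3.trans key, fun hP => ?_⟩
  obtain ⟨J, hJ⟩ := (g1 τ).1 (key.2 hP)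
  obtain ⟨m, r, hm⟩ := rp_exists (p * q) J
  obtain ⟨X, Y, hXY, hm2⟩ := h5 J m r hm hJ.symm
  obtain ⟨-, hq4'⟩ := quartic_sym p q hpq m hm.2.1 X Y hXY hm2
  have hj := hχm J m r hm
  refine (g4 J hJ.symm).trans (Iff.trans ?_ hq4')
  rw [← hj]
  constructor
  · intro h; rw [h]; rfl
  · intro h; exact Units.ext h

end Pool.Agent.PQ
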